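import Mathlib

namespace Pool.Agent.Results.MP_c3a542_nt.Counter

open Filter Topology

/-- `b` is defined everywhere and obeys the perturbed Conway-Mallows recursion -/
def Rec (b : ℕ → ℤ) : Prop :=
  b 1 = 1 ∧ b 2 = 1 ∧ ∀ n, 3 ≤ n → ∃ x : ℕ, b (n - 1) = x ∧ 1 ≤ x ∧ x ≤ n - 1 ∧
    b n = b x + b (n - x) + (-1) ^ n

structure AB (A B : ℕ → ℕ) : Prop where
  a1 : A 1 = 1
  b1 : B 1 = 1
  hB : ∀ m, 2 ≤ m → B m = A (A m) + A (m + 1 - A m)
  hA : ∀ m, 1 ≤ m → A (m + 1) + 1 = A (B m) + B (m + 1 - B m)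
  ra : ∀ m, 1 ≤ m → 1 ≤ A m ∧ A m ≤ m
  rb : ∀ m, 1 ≤ m → 1 ≤ B m ∧ B m ≤ m

def LA : List ℕ := [0, 1, 1, 1, 2, 2, 2, 2, 3, 3, 3, 4, 4, 4, 4, 4, 5, 6, 6, 6, 7, 7, 7, 7, 8, 8, 8, 8, 8, 8, 8,
  8, 9, 10, 11, 11, 12, 12, 12, 13, 13, 13, 13, 14, 14, 14, 14, 14, 14, 15, 15, 16, 17, 17, 17,
  17, 17, 17, 17, 17, 18, 18, 18, 18, 18, 19, 20, 20, 21, 21, 21, 21, 21, 22, 23, 24, 24, 25,
  25, 25, 26, 26, 26, 26, 27, 27, 27, 27, 27, 27, 27, 27, 27, 27, 28, 28, 28, 28, 29, 29, 30,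
  31, 31, 31, 31, 31, 32, 33, 34, 34, 35, 35, 36, 36, 36, 36, 36, 36, 36, 36, 37, 37, 37, 37,
  37, 38, 38, 38, 38, 38, 39, 39, 40, 40, 40, 40, 41, 41, 41, 41, 41, 42, 42, 42, 42, 42, 42,
  43, 43, 43, 43, 43, 44, 45, 46, 47, 48, 48, 49, 49, 49, 50, 51, 52, 52, 53, 53, 53, 54, 54,
  54]

def LB : List ℕ := [0, 1, 2, 2, 2, 3, 3, 3, 3, 3, 4, 5, 5, 5, 6, 6, 6, 6, 6, 6, 6, 6, 7, 8, 9, 9, 9, 10, 10, 10,
  10, 11, 11, 11, 12, 12, 12, 12, 12, 12, 12, 12, 12, 12, 12, 13, 14, 15, 15, 15, 16, 17, 18,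
  18, 18, 19, 19, 19, 19, 20, 20, 20, 20, 20, 20, 20, 21, 21, 21, 22, 22, 23, 24, 24, 24, 25,
  25, 25, 25, 25, 25, 25, 25, 25, 25, 25, 26, 26, 26, 26, 26, 27, 28, 28, 28, 29, 29, 29, 29,
  29, 29, 29, 29, 30, 31, 32, 33, 34, 35, 35, 35, 36, 37, 37, 37, 38, 38, 38, 38, 39, 39, 39,
  39, 39, 39, 39, 39, 39, 39, 39, 40, 40, 40, 41, 41, 41, 41, 41, 42, 42, 43, 43, 44, 44, 44,
  44, 44, 45, 46, 47, 48, 48, 48, 48, 48, 48, 48, 49, 50, 50, 51, 51, 52, 53, 53, 53, 53, 53,
  53, 53, 53]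

def PE (A B : ℕ → ℕ) (T U : ℕ) : Prop :=
  A T + 2 = U ∧ A (T + 1) + 1 = U ∧ A (T + 2) + 1 = U ∧ A (T + 3) = U ∧ A (T + 4) = U ∧ A (T + 5)
  = U ∧ A (T + 6) = U + 1 ∧ B T + 1 = U ∧ B (T + 1) = U ∧ B (T + 2) = U ∧ B (T + 3) = U ∧ B (T
  + 4) = U ∧ B (T + 5) = U ∧ B (T + 6) = U

def PO (A B : ℕ → ℕ) (T U : ℕ) : Prop :=
  A T + 1 = U ∧ A (T + 1) + 1 = U ∧ A (T + 2) = U ∧ A (T + 3) = U ∧ A (T + 4) = U ∧ A (T + 5) = U
  ∧ B T + 1 = U ∧ B (T + 1) = U ∧ B (T + 2) = U + 1 ∧ B (T + 3) = U + 1 ∧ B (T + 4) = U + 1 ∧ B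
  (T + 5) = U + 2

variable {A B : ℕ → ℕ}

lemma table (h : AB A B) : ∀ m, 1 ≤ m → m ≤ 170 → A m = LA.getD m 0 ∧ B m = LB.getD m 0 := by
  have t1 : ∀ m ≤ 170, 2 ≤ m →
      LB.getD m 0 = LA.getD (LA.getD m 0) 0 + LA.getD (m + 1 - LA.getD m 0) 0 := by decide +kernel
  have t2 : ∀ m < 170, 1 ≤ m → LA.getD (m + 1) 0 + 1 =
      LA.getD (LB.getD m 0) 0 + LB.getD (m + 1 - LB.getD m 0) 0 := by decide +kernel
  intro m
  induction m using Nat.strong_induction_on with
  | _ m ih =>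
    intro h1 h2
    obtain rfl | ⟨k, rfl, hk⟩ : m = 1 ∨ ∃ k, m = k + 1 ∧ 1 ≤ k := by
      rcases Nat.eq_or_lt_of_le h1 with h | h
      · exact Or.inl h.symm
      · exact Or.inr ⟨m - 1, by omega, by omega⟩
    · exact ⟨h.a1, h.b1⟩
    have r := h.rb k hk
    have e1 : A (k + 1) = LA.getD (k + 1) 0 := by
      have := h.hA k hk
      rw [(ih (B k) (by omega) r.1 (by omega)).1, (ih (k + 1 - B k) (by omega) (by omega)
        (by omega)).2, (ih k (by omega) hk (by omega)).2, ← t2 k (by omega) hk] at this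
      omega
    have hh : ∀ x, 1 ≤ x → x ≤ k + 1 → A x = LA.getD x 0 := by
      intro x hx hx2
      rcases Nat.eq_or_lt_of_le hx2 with h | h
      · rw [h, e1]
      · exact (ih x h hx (by omega)).1
    have r2 := h.ra (k + 1) (by omega)
    refine ⟨e1, ?_⟩
    rw [h.hB _ (by omega), hh _ r2.1 r2.2, hh (k + 1 + 1 - A (k + 1)) (by omega) (by omega), e1,
      ← t1 _ h2 (by omega)]

lemma slow (h : AB A B) : ∀ m, 1 ≤ m → (A m ≤ A (m + 1) ∧ A (m + 1) ≤ A m + 1) ∧
    (B m ≤ B (m + 1) ∧ B (m + 1) ≤ B m + 1) := by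
  intro m
  induction m using Nat.strong_induction_on with
  | _ m ih =>
    intro h1
    obtain rfl | ⟨k, rfl, hk⟩ : m = 1 ∨ ∃ k, m = k + 1 ∧ 1 ≤ k := by
      rcases Nat.eq_or_lt_of_le h1 with h | h
      · exact Or.inl h.symm
      · exact Or.inr ⟨m - 1, by omega, by omega⟩
    · rw [(table h 1 le_rfl (by norm_num)).1, (table h 1 le_rfl (by norm_num)).2,
        (table h 2 (by norm_num) (by norm_num)).1, (table h 2 (by norm_num) (by norm_num)).2]
      decide
    have r := h.rb k hk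
    have e1 : A (k + 1) ≤ A (k + 1 + 1) ∧ A (k + 1 + 1) ≤ A (k + 1) + 1 := by
      have p1 := h.hA k hk
      have p2 := h.hA (k + 1) h1
      have q1 := (ih (B k) (by omega) r.1).1
      have q2 := (ih (k + 1 - B k) (by omega) (by omega)).2
      rcases (by have := (ih k (by omega) hk).2; omega :
        B (k + 1) = B k ∨ B (k + 1) = B k + 1) with e | e
      · rw [e, show k + 1 + 1 - B k = k + 1 - B k + 1 by omega] at p2
        omega
      · rw [e, show k + 1 + 1 - (B k + 1) = k + 1 - B k by omega] at p2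
        omega
    have hh : ∀ x, 1 ≤ x → x ≤ k + 1 → A x ≤ A (x + 1) ∧ A (x + 1) ≤ A x + 1 := by
      intro x hx hx2
      rcases Nat.eq_or_lt_of_le hx2 with h | h
      · rw [h]
        exact e1
      · exact (ih x h hx).1
    have r2 := h.ra (k + 1) h1
    refine ⟨e1, ?_⟩
    have p1 := h.hB (k + 1) (by omega)
    have p2 := h.hB (k + 1 + 1) (by omega)
    have q1 := hh _ r2.1 r2.2
    have q2 := hh (k + 1 + 1 - A (k + 1)) (by omega) (by omega)
    rcases (by omega : A (k + 1 + 1) = A (k + 1) ∨ A (k + 1 + 1) = A (k + 1) + 1) with e | e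
    · rw [e, show k + 1 + 1 + 1 - A (k + 1) = k + 1 + 1 - A (k + 1) + 1 by omega] at p2
      omega
    · rw [e, show k + 1 + 1 + 1 - (A (k + 1) + 1) = k + 1 + 1 - A (k + 1) by omega] at p2
      omega

lemma mono {f : ℕ → ℕ} (hf : ∀ m, 1 ≤ m → f m ≤ f (m + 1) ∧ f (m + 1) ≤ f m + 1) (x y : ℕ)
    (hx : 1 ≤ x) (hxy : x ≤ y) : f x ≤ f y ∧ f y + x ≤ f x + y := by
  induction y, hxy using Nat.le_induction with
  | base => omega
  | succ y hy ih =>
    have := hf y (by omega)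
    omega

lemma trap (h : AB A B) (X Y X' Y' S : ℕ)
    (h1 : ∀ x y, 1 ≤ x → 1 ≤ y → x ≤ X → y ≤ Y → x + y ≤ S + 1 →
      A x + A y ≤ X' ∧ x + y ≤ A x + A y + Y')
    (h2 : ∀ x y, 1 ≤ x → 1 ≤ y → x ≤ X' → y ≤ Y' → x + y ≤ S →
      A x + B y ≤ X + 1 ∧ x + y + 2 ≤ A x + B y + Y)
    (h3 : 2 ≤ X) (h4 : 2 ≤ Y) : ∀ m, 2 ≤ m → m ≤ S → A m ≤ X ∧ m + 1 ≤ A m + Y := by
  intro m hm
  induction m, hm using Nat.le_induction with
  | base =>
    have := h.ra 2 (by norm_num)
    omega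
  | succ m hm ih =>
    intro hS
    have r := h.ra m (by omega)
    have r' := h.rb m (by omega)
    have p1 := h1 (A m) (m + 1 - A m) r.1 (by omega) (by omega) (by omega) (by omega)
    have p2 := h.hB m hm
    have p3 := h2 (B m) (m + 1 - B m) r'.1 (by omega) (by omega) (by omega) (by omega)
    have p4 := h.hA m (by omega)
    omega

lemma evB (h : AB A B) {m x y : ℕ} (hm : 2 ≤ m) (hx : A m = x) (hy : x + y = m + 1) :
    B m = A x + A y := by
  rw [h.hB m hm, hx, show m + 1 - x = y by omega]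

lemma evA (h : AB A B) {m x y : ℕ} (hm : 2 ≤ m) (hx : B m = x) (hy : x + y = m + 1) :
    A (m + 1) + 1 = A x + B y := by
  rw [h.hA m (by omega), hx, show m + 1 - x = y by omega]

lemma stepE (h : AB A B) {u u' w w' : ℕ} (hu : PO A B u u') (hw : PO A B w w')
    (e : u + 3 = w' + u') (h1 : 2 ≤ u) (h2 : 2 ≤ w) : PE A B (u + w + 2) (u + 3) := by
  have ma := mono fun m hm => (slow h m hm).1
  have mb := mono fun m hm => (slow h m hm).2
  have t := trap h (u + 1) (w + 2) (u + 2) (w + 1) (u + w + 2) ?_ ?_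
    (by omega) (by omega) (u + w + 2) (by omega) le_rfl
  all_goals
    obtain ⟨uA0, uA1, uA2, uA3, uA4, uA5, uB0, uB1, uB2, uB3, uB4, uB5⟩ := hu
    obtain ⟨wA0, wA1, wA2, wA3, wA4, wA5, wB0, wB1, wB2, wB3, wB4, wB5⟩ := hw
  rotate_left
  · intro x y hx hy h3 h4 _
    have k1 := ma x _ hx h3
    have k2 := ma y _ hy h4
    clear * - k1 k2 e uA1 wA2
    omega
  · intro x y hx hy h3 h4 h5
    rcases (by clear * - h3 h4 h5; omega : x ≤ u + 1 ∨ y ≤ w) with h6 | h6
    · have k1 := ma x _ hx h6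
      have k2 := mb y _ hy h4
      clear * - k1 k2 e uA1 wB1
      omega
    · have k1 := ma x _ hx h3
      have k2 := mb y _ hy h6
      clear * - k1 k2 e uA2 wB0
      omega
  generalize hT : u + w + 2 = T at t ⊢
  have h3 : ∀ d, 2 ≤ T + d := fun d => by clear * - hT h1; omega
  have a0 : A T = u + 1 := by clear * - t hT; omega
  have b0 : B T = u + 2 := by
    have k := evB h (y := w + 2) (show 2 ≤ T from h3 0) a0 (by clear * - hT; omega)
    clear * - k e uA1 wA2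
    omega
  have a1 : A (T + 1) = u + 2 := by
    have k : A (T + 1) + 1 = _ := evA h (y := w + 1) (show 2 ≤ T from h3 0) b0 (by clear * - hT; omega)
    clear * - k e uA2 wB1
    omega
  have b1 : B (T + 1) = u + 3 := by
    have k := evB h (y := w + 2) (h3 1) a1 (by clear * - hT; omega)
    clear * - k e uA2 wA2
    omega
  have a2 : A (T + 2) = u + 2 := by
    have k : A (T + 2) + 1 = _ := evA h (y := w + 1) (h3 1) b1 (by clear * - hT; omega)
    clear * - k e uA3 wB1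
    omega
  have b2 : B (T + 2) = u + 3 := by
    have k := evB h (y := w + 3) (h3 2) a2 (by clear * - hT; omega)
    clear * - k e uA2 wA3
    omega
  have a3 : A (T + 3) = u + 3 := by
    have k : A (T + 3) + 1 = _ := evA h (y := w + 2) (h3 2) b2 (by clear * - hT; omega)
    clear * - k e uA3 wB2
    omega
  have b3 : B (T + 3) = u + 3 := by
    have k := evB h (y := w + 3) (h3 3) a3 (by clear * - hT; omega)
    clear * - k e uA3 wA3
    omega
  have a4 : A (T + 4) = u + 3 := by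
    have k : A (T + 4) + 1 = _ := evA h (y := w + 3) (h3 3) b3 (by clear * - hT; omega)
    clear * - k e uA3 wB3
    omega
  have b4 : B (T + 4) = u + 3 := by
    have k := evB h (y := w + 4) (h3 4) a4 (by clear * - hT; omega)
    clear * - k e uA3 wA4
    omega
  have a5 : A (T + 5) = u + 3 := by
    have k : A (T + 5) + 1 = _ := evA h (y := w + 4) (h3 4) b4 (by clear * - hT; omega)
    clear * - k e uA3 wB4
    omega
  have b5 : B (T + 5) = u + 3 := by
    have k := evB h (y := w + 5) (h3 5) a5 (by clear * - hT; omega)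
    clear * - k e uA3 wA5
    omega
  have a6 : A (T + 6) = u + 4 := by
    have k : A (T + 6) + 1 = _ := evA h (y := w + 5) (h3 5) b5 (by clear * - hT; omega)
    clear * - k e uA3 wB5
    omega
  have b6 : B (T + 6) = u + 3 := by
    have k := evB h (y := w + 5) (h3 6) a6 (by clear * - hT; omega)
    clear * - k e uA4 wA5
    omega
  refine ⟨by rw [a0], by rw [a1], by rw [a2], by rw [a3], by rw [a4], by rw [a5], by rw [a6], by rw [b0], by rw [b1], by rw [b2], by rw [b3], by rw [b4], by rw [b5], by rw [b6]⟩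

lemma stepO (h : AB A B) {u u' w w' : ℕ} (hu : PE A B u u') (hw : PE A B w w')
    (e : u + 4 = w' + u') (h1 : 2 ≤ u) (h2 : 2 ≤ w) : PO A B (u + w + 3) (u + 3) := by
  have ma := mono fun m hm => (slow h m hm).1
  have mb := mono fun m hm => (slow h m hm).2
  have t := trap h (u + 2) (w + 2) (u + 2) (w + 2) (u + w + 3) ?_ ?_
    (by omega) (by omega) (u + w + 3) (by omega) le_rfl
  all_goals
    obtain ⟨uA0, uA1, uA2, uA3, uA4, uA5, uA6, uB0, uB1, uB2, uB3, uB4, uB5, uB6⟩ := hu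
    obtain ⟨wA0, wA1, wA2, wA3, wA4, wA5, wA6, wB0, wB1, wB2, wB3, wB4, wB5, wB6⟩ := hw
  rotate_left
  · intro x y hx hy h3 h4 _
    have k1 := ma x _ hx h3
    have k2 := ma y _ hy h4
    clear * - k1 k2 e uA2 wA2
    omega
  · intro x y hx hy h3 h4 h5
    rcases (by clear * - h3 h4 h5; omega : x ≤ u + 1 ∨ y ≤ w + 1) with h6 | h6
    · have k1 := ma x _ hx h6
      have k2 := mb y _ hy h4
      clear * - k1 k2 e uA1 wB2
      omega
    · have k1 := ma x _ hx h3
      have k2 := mb y _ hy h6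
      clear * - k1 k2 e uA2 wB1
      omega
  generalize hT : u + w + 3 = T at t ⊢
  have h3 : ∀ d, 2 ≤ T + d := fun d => by clear * - hT h1; omega
  have a0 : A T = u + 2 := by clear * - t hT; omega
  have b0 : B T = u + 2 := by
    have k := evB h (y := w + 2) (show 2 ≤ T from h3 0) a0 (by clear * - hT; omega)
    clear * - k e uA2 wA2
    omega
  have a1 : A (T + 1) = u + 2 := by
    have k : A (T + 1) + 1 = _ := evA h (y := w + 2) (show 2 ≤ T from h3 0) b0 (by clear * - hT; omega)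
    clear * - k e uA2 wB2
    omega
  have b1 : B (T + 1) = u + 3 := by
    have k := evB h (y := w + 3) (h3 1) a1 (by clear * - hT; omega)
    clear * - k e uA2 wA3
    omega
  have a2 : A (T + 2) = u + 3 := by
    have k : A (T + 2) + 1 = _ := evA h (y := w + 2) (h3 1) b1 (by clear * - hT; omega)
    clear * - k e uA3 wB2
    omega
  have b2 : B (T + 2) = u + 4 := by
    have k := evB h (y := w + 3) (h3 2) a2 (by clear * - hT; omega)
    clear * - k e uA3 wA3
    omega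
  have a3 : A (T + 3) = u + 3 := by
    have k : A (T + 3) + 1 = _ := evA h (y := w + 2) (h3 2) b2 (by clear * - hT; omega)
    clear * - k e uA4 wB2
    omega
  have b3 : B (T + 3) = u + 4 := by
    have k := evB h (y := w + 4) (h3 3) a3 (by clear * - hT; omega)
    clear * - k e uA3 wA4
    omega
  have a4 : A (T + 4) = u + 3 := by
    have k : A (T + 4) + 1 = _ := evA h (y := w + 3) (h3 3) b3 (by clear * - hT; omega)
    clear * - k e uA4 wB3
    omega
  have b4 : B (T + 4) = u + 4 := by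
    have k := evB h (y := w + 5) (h3 4) a4 (by clear * - hT; omega)
    clear * - k e uA3 wA5
    omega
  have a5 : A (T + 5) = u + 3 := by
    have k : A (T + 5) + 1 = _ := evA h (y := w + 4) (h3 4) b4 (by clear * - hT; omega)
    clear * - k e uA4 wB4
    omega
  have b5 : B (T + 5) = u + 5 := by
    have k := evB h (y := w + 6) (h3 5) a5 (by clear * - hT; omega)
    clear * - k e uA3 wA6
    omega
  refine ⟨by rw [a0], by rw [a1], by rw [a2], by rw [a3], by rw [a4], by rw [a5], by rw [b0], by rw [b1], by rw [b2], by rw [b3], by rw [b4], by rw [b5]⟩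

def s : ℕ → ℕ
  | 0 => 25
  | 1 => 36
  | 2 => 53
  | (n + 3) => s (n + 2) + s n - (n + 1) % 2

lemma s_bd (n : ℕ) : n + 25 ≤ s n ∧ 144 * s n ≤ 100 * s (n + 1) ∧ 1000 * s (n + 1) ≤ 1483 * s n ∧
    144 * s (n + 1) ≤ 100 * s (n + 2) ∧ 1000 * s (n + 2) ≤ 1483 * s (n + 1) := by
  induction n with
  | zero => simp [s]
  | succ n ih =>
    by_cases hn : n ≤ 6
    · interval_cases n <;> decide
    rw [show s (n + 1 + 2) = s (n + 2) + s n - (n + 1) % 2 from rfl,
      show s (n + 1 + 1) = s (n + 2) from rfl]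
    omega

lemma baseE (h : AB A B) (T U : ℕ) (h1 : 1 ≤ T) (h2 : T ≤ 164)
    (h3 : PE (LA.getD · 0) (LB.getD · 0) T U) : PE A B T U := by
  have ta : ∀ d, d ≤ 6 → A (T + d) = LA.getD (T + d) 0 :=
    fun d hd => (table h _ (by omega) (by omega)).1
  have tb : ∀ d, d ≤ 6 → B (T + d) = LB.getD (T + d) 0 :=
    fun d hd => (table h _ (by omega) (by omega)).2
  unfold PE at h3 ⊢
  rw [ta 1, ta 2, ta 3, ta 4, ta 5, ta 6, tb 1, tb 2, tb 3, tb 4, tb 5, tb 6,
    (table h T h1 (by omega)).1, (table h T h1 (by omega)).2] <;> first | exact h3 | norm_num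

lemma baseO (h : AB A B) (T U : ℕ) (h1 : 1 ≤ T) (h2 : T ≤ 164)
    (h3 : PO (LA.getD · 0) (LB.getD · 0) T U) : PO A B T U := by
  have ta : ∀ d, d ≤ 6 → A (T + d) = LA.getD (T + d) 0 :=
    fun d hd => (table h _ (by omega) (by omega)).1
  have tb : ∀ d, d ≤ 6 → B (T + d) = LB.getD (T + d) 0 :=
    fun d hd => (table h _ (by omega) (by omega)).2
  unfold PO at h3 ⊢
  rw [ta 1, ta 2, ta 3, ta 4, ta 5, tb 1, tb 2, tb 3, tb 4, tb 5,
    (table h T h1 (by omega)).1, (table h T h1 (by omega)).2] <;> first | exact h3 | norm_num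

lemma pat (h : AB A B) (n : ℕ) : (n % 2 = 0 → PE A B (s (n + 3) - 3) (s n)) ∧
    (n % 2 = 1 → PO A B (s (n + 3) - 3) (s n)) := by
  induction n using Nat.strong_induction_on with
  | _ n ih =>
    match n with
    | 0 => exact ⟨fun _ => baseE h 74 25 (by omega) (by omega) (by unfold PE; decide +kernel), by omega⟩
    | 1 => exact ⟨by omega, fun _ => baseO h 110 36 (by omega) (by omega) (by unfold PO; decide +kernel)⟩
    | 2 => exact ⟨fun _ => baseE h 162 53 (by omega) (by omega) (by unfold PE; decide +kernel), by omega⟩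
    | n + 3 =>
      have e1 : s (n + 3) = s (n + 2) + s n - (n + 1) % 2 := rfl
      have e2 : s (n + 3 + 3) = s (n + 2 + 3) + s (n + 3) - (n + 3 + 1) % 2 := rfl
      have b1 := (s_bd n).1
      have b2 := (s_bd (n + 3)).1
      have b3 := (s_bd (n + 2 + 3)).1
      constructor
      · intro hn
        have := stepE h ((ih n (by omega)).2 (by omega)) ((ih (n + 2) (by omega)).2 (by omega))
          (by omega) (by omega) (by omega)
        convert this using 1 <;> omega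
      · intro hn
        have := stepO h ((ih n (by omega)).1 (by omega)) ((ih (n + 2) (by omega)).1 (by omega))
          (by omega) (by omega) (by omega)
        convert this using 1 <;> omega

lemma toAB {b : ℕ → ℤ} (h : Rec b) :
    ∃ A B : ℕ → ℕ, AB A B ∧ ∀ m, 1 ≤ m → b (2 * m) = 2 * B m - 1 := by
  obtain ⟨h1, h2, h3⟩ := h
  have odd : ∀ n, 1 ≤ n → b n % 2 = 1 := by
    intro n
    induction n using Nat.strong_induction_on with
    | _ n ih =>
      intro hn
      by_cases h4 : 3 ≤ n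
      · obtain ⟨x, -, x1, x2, e⟩ := h3 n h4
        have := ih x (by omega) x1
        have := ih (n - x) (by omega) (by omega)
        rcases neg_one_pow_eq_or ℤ n with e2 | e2 <;> rw [e2] at e <;> omega
      · obtain rfl | rfl : n = 1 ∨ n = 2 := by omega
        · omega
        · omega
  have rng : ∀ n, 1 ≤ n → 1 ≤ b n ∧ b n ≤ n := by
    intro n hn
    by_cases h4 : n = 1
    · subst h4
      omega
    · obtain ⟨x, e, x1, x2, -⟩ := h3 (n + 1) (by omega)
      simp only [Nat.add_sub_cancel] at e x2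
      omega
  have hA : ∀ m, 1 ≤ m → b (2 * m - 1) = 2 * ((b (2 * m - 1) + 1) / 2).toNat - 1 := by
    intro m hm
    have := odd (2 * m - 1) (by omega)
    have := rng (2 * m - 1) (by omega)
    omega
  have hB : ∀ m, 1 ≤ m → b (2 * m) = 2 * ((b (2 * m) + 1) / 2).toNat - 1 := by
    intro m hm
    have := odd (2 * m) (by omega)
    have := rng (2 * m) (by omega)
    omega
  generalize hA' : (fun m => ((b (2 * m - 1) + 1) / 2).toNat) = A
  generalize hB' : (fun m => ((b (2 * m) + 1) / 2).toNat) = B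
  have hA2 : ∀ m, 1 ≤ m → b (2 * m - 1) = 2 * A m - 1 := by subst hA'; exact hA
  have hB2 : ∀ m, 1 ≤ m → b (2 * m) = 2 * B m - 1 := by subst hB'; exact hB
  have ra : ∀ m, 1 ≤ m → 1 ≤ A m ∧ A m ≤ m := fun m hm => by
    have := hA2 m hm
    have := rng (2 * m - 1) (by omega)
    omega
  have rb : ∀ m, 1 ≤ m → 1 ≤ B m ∧ B m ≤ m := fun m hm => by
    have := hB2 m hm
    have := rng (2 * m) (by omega)
    omega
  refine ⟨A, B, ⟨?_, ?_, ?_, ?_, ra, rb⟩, hB2⟩
  · have := ra 1 le_rfl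
    omega
  · have := rb 1 le_rfl
    omega
  · intro m hm
    obtain ⟨x, e, -, -, e2⟩ := h3 (2 * m) (by omega)
    have r := ra m (by omega)
    rw [hA2 m (by omega)] at e
    rw [show x = 2 * A m - 1 by omega, show 2 * m - (2 * A m - 1) = 2 * (m + 1 - A m) - 1 by omega,
      hB2 m (by omega), hA2 _ r.1, hA2 _ (by omega), pow_mul] at e2
    norm_num at e2
    omega
  · intro m hm
    obtain ⟨x, e, -, -, e2⟩ := h3 (2 * (m + 1) - 1) (by omega)
    have r := rb m hm
    rw [show 2 * (m + 1) - 1 - 1 = 2 * m by omega, hB2 m hm] at e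
    rw [show x = 2 * B m - 1 by omega,
      show 2 * (m + 1) - 1 - (2 * B m - 1) = 2 * (m + 1 - B m) by omega,
      hA2 (m + 1) (by omega), hA2 _ r.1, hB2 _ (by omega),
      show 2 * (m + 1) - 1 = 2 * m + 1 by omega, pow_succ, pow_mul] at e2
    norm_num at e2
    omega

theorem result (b : ℕ → ℤ) (h : Rec b) : (∃ᶠ n in atTop, (0.31 : ℝ) ≤ (b n : ℝ) / n) ∧
    ¬ Tendsto (fun n : ℕ => (b n : ℝ) / n) atTop (𝓝 ((√5 - 1) / 4)) := by
  obtain ⟨A, B, hab, hb⟩ := toAB h
  have key : ∃ᶠ n in atTop, (0.31 : ℝ) ≤ (b n : ℝ) / n := by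
    rw [frequently_atTop]
    intro N
    have b0 := s_bd (2 * N + 100)
    have b3 := (s_bd (2 * N + 100 + 3)).1
    have e1 : s (2 * N + 100 + 3) =
      s (2 * N + 100 + 2) + s (2 * N + 100) - (2 * N + 100 + 1) % 2 := rfl
    have p := (pat hab (2 * N + 100)).1 (by omega)
    unfold PE at p
    rw [show s (2 * N + 100 + 3) - 3 + 3 = s (2 * N + 100 + 3) by omega] at p
    refine ⟨2 * s (2 * N + 100 + 3), by omega, ?_⟩
    have h1 : 31 * ((2 * s (2 * N + 100 + 3) : ℕ) : ℤ) ≤ 100 * b (2 * s (2 * N + 100 + 3)) := by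
      rw [hb _ (by omega)]
      omega
    have h2 : (0 : ℝ) < (2 * s (2 * N + 100 + 3) : ℕ) := by exact_mod_cast (by omega)
    rw [le_div_iff₀ h2]
    have h3 : (31 : ℝ) * ((2 * s (2 * N + 100 + 3) : ℕ) : ℝ) ≤
      100 * (b (2 * s (2 * N + 100 + 3)) : ℝ) := by exact_mod_cast h1
    linarith
  refine ⟨key, fun ht => ?_⟩
  have h5 : (√5 - 1) / 4 < (0.31 : ℝ) := by
    have : √5 < (2.24 : ℝ) := Real.sqrt_lt' (by norm_num) |>.mpr (by norm_num)
    linarith
  obtain ⟨n, h6, h7⟩ := (key.and_eventually (ht.eventually (gt_mem_nhds h5))).exists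
  linarith

end Pool.Agent.Results.MP_c3a542_nt.Counter
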